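import Mathlib

set_option autoImplicit false

namespace Pool.Agent.Results.MP_b998f6_co.NineCycle

/-- An undirected temporal graph on `V`: an edge set consisting of unordered pairs of distinct
vertices, and a set of time labels for each edge. -/
structure UndirectedTemporalGraph (V : Type) where
  /-- the underlying undirected graph -/
  graph : SimpleGraph V
  /-- the labels of the edges (the values outside the edge set are irrelevant) -/
  labels : Sym2 V → Set ℕ

/-- A directed temporal graph on `W`: a set of ordered pairs and a set of time labels for each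
of them. -/
structure DirectedTemporalGraph (W : Type) where
  /-- the arcs -/
  arcs : Set (W × W)
  /-- the labels of the arcs (the values outside the arc set are irrelevant) -/
  labels : W × W → Set ℕ

/-- `G.Contact u v t`: `{u, v}` is an edge of `G` with label `t`. -/
def UndirectedTemporalGraph.Contact {V : Type} (G : UndirectedTemporalGraph V) (u v : V)
    (t : ℕ) : Prop :=
  G.graph.Adj u v ∧ t ∈ G.labels s(u, v)

/-- `H.Contact u v t`: `(u, v)` is an arc of `H` with label `t`. -/
def DirectedTemporalGraph.Contact {W : Type} (H : DirectedTemporalGraph W) (u v : W)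
    (t : ℕ) : Prop :=
  (u, v) ∈ H.arcs ∧ t ∈ H.labels (u, v)

/-- A directed temporal graph is simple if every arc carries exactly one label. -/
def DirectedTemporalGraph.IsSimple {W : Type} (H : DirectedTemporalGraph W) : Prop :=
  ∀ e ∈ H.arcs, ∃! t, t ∈ H.labels e

/-- There is a non-strict temporal path from `u` to `v`, where `c x y t` says that one can step
from `x` to `y` at time `t`: a sequence of vertices `u = x 0, x 1, …, x k = v` and a
non-decreasing sequence of times `t 0 ≤ t 1 ≤ … ≤ t (k-1)` such that the step from `x i` to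
`x (i+1)` is possible at time `t i`. -/
def TemporalPath {V : Type} (c : V → V → ℕ → Prop) (u v : V) : Prop :=
  ∃ (k : ℕ) (x : ℕ → V) (t : ℕ → ℕ), x 0 = u ∧ x k = v ∧
    (∀ i < k, c (x i) (x (i + 1)) (t i)) ∧ (∀ i, i + 1 < k → t i ≤ t (i + 1))

/-- The arcs of the reachability graph. -/
def Reachability {V : Type} (c : V → V → ℕ → Prop) (u v : V) : Prop :=
  u ≠ v ∧ TemporalPath c u v

/-- Two temporal graphs (given by their contacts) are reachability equivalent if their
reachability graphs are isomorphic. -/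
def ReachabilityEquivalent {V W : Type} (c : V → V → ℕ → Prop) (d : W → W → ℕ → Prop) : Prop :=
  ∃ e : V ≃ W, ∀ u v : V, Reachability c u v ↔ Reachability d (e u) (e v)

/-! ### The example -/

/-- The edges present at a given time: the vertices `3i`, `3i+1`, `3i+2` are called
`a_i`, `b_i`, `s_i`. -/
def step (t : ℕ) (u v : Fin 9) : Bool :=
  match t with
  | 1 => u.val % 3 == 0 && v.val == u.val + 1 || v.val % 3 == 0 && u.val == v.val + 1
  | 2 => u.val % 3 == 1 && v.val == u.val + 1 || v.val % 3 == 1 && u.val == v.val + 1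
  | 3 => u.val % 3 == 2 && v.val == (u.val + 1) % 9 || v.val % 3 == 2 && u.val == (v.val + 1) % 9
  | 4 => u.val % 3 == 0 && v.val == u.val + 1 || v.val % 3 == 0 && u.val == v.val + 1
  | _ => false

/-- The example: a cycle of length nine; the edges `{a_i, b_i}` have the labels `1` and `4`, the
edges `{b_i, s_i}` the label `2`, and the edges `{s_i, a_(i+1)}` the label `3`. -/
def exG : UndirectedTemporalGraph (Fin 9) where
  graph := SimpleGraph.cycleGraph 9
  labels e := {t | ∃ u v : Fin 9, e = s(u, v) ∧ step t u v = true}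

theorem step_symm (t : ℕ) (u v : Fin 9) (h : step t u v = true) : step t v u = true := by
  unfold step at *
  split at h <;> simp_all [or_comm]

theorem contact_iff (u v : Fin 9) (t : ℕ) : exG.Contact u v t ↔ step t u v = true := by
  constructor
  · rintro ⟨-, x, y, hxy, hs⟩
    rcases Sym2.eq_iff.1 hxy with ⟨rfl, rfl⟩ | ⟨rfl, rfl⟩
    · exact hs
    · exact step_symm _ _ _ hs
  · intro h
    refine ⟨?_, u, v, rfl, h⟩
    have key : ∀ (t : Fin 5) (u v : Fin 9), step t.val u v = true →
        (SimpleGraph.cycleGraph 9).Adj u v := by decide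
    have ht : t < 5 := by
      by_contra h5
      unfold step at h
      split at h <;> first | omega | exact absurd h (by decide)
    exact key ⟨t, ht⟩ u v h

/-- The reachability relation of the example. -/
def tab (u v : Fin 9) : Bool :=
  let i := u.val / 3
  let j := v.val / 3
  if v.val % 3 == 2 then i == j || (i == (j + 1) % 3 && u.val % 3 != 2)
  else i == j || j == (i + 1) % 3

/-- The knowledge of the vertices: `know t v u` says that `v` has been reached from `u` by
time `t`. -/
def know (t : ℕ) (v u : Fin 9) : Bool :=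
  let i := u.val / 3
  let j := v.val / 3
  match t with
  | 0 => u == v
  | 1 => u == v || (i == j && u.val % 3 != 2 && v.val % 3 != 2)
  | 2 => if v.val % 3 == 0 then i == j && u.val % 3 != 2 else i == j
  | 3 => if v.val % 3 == 0 then (i == j && u.val % 3 != 2) || j == (i + 1) % 3
      else if v.val % 3 == 1 then i == j
      else tab u v
  | _ => tab u v

theorem know_mono : ∀ (t t' : Fin 5), t ≤ t' → ∀ v u : Fin 9, know t.val v u = true →
    know t'.val v u = true := by decide

theorem know_step : ∀ (t : Fin 5) (v w u : Fin 9), step t.val v w = true →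
    know t.val v u = true → know t.val w u = true := by decide

theorem tab_of_path {u v : Fin 9} (h : TemporalPath exG.Contact u v) : tab u v = true := by
  obtain ⟨k, x, t, h0, hk, hc, ht⟩ := h
  have hlt : ∀ i < k, t i < 5 := by
    intro i hi
    have h := (contact_iff _ _ _).1 (hc i hi)
    by_contra h5
    unfold step at h
    split at h <;> first | omega | exact absurd h (by decide)
  have key : ∀ m, m < k → know (t m) (x (m + 1)) u = true := by
    intro m
    induction m with
    | zero =>
      intro hm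
      have h1 := (contact_iff _ _ _).1 (hc 0 hm)
      have h2 : know (t 0) (x 0) u = true := by
        have := know_mono 0 ⟨t 0, hlt 0 hm⟩ (Fin.zero_le _) (x 0) u
        apply this
        rw [h0]
        simp [know]
      exact know_step ⟨t 0, hlt 0 hm⟩ _ _ _ h1 h2
    | succ m ih =>
      intro hm
      have h1 := (contact_iff _ _ _).1 (hc (m + 1) hm)
      have h2 := ih (by omega)
      have h3 : know (t (m + 1)) (x (m + 1)) u = true := by
        have hle : (⟨t m, hlt m (by omega)⟩ : Fin 5) ≤ ⟨t (m + 1), hlt _ hm⟩ := ht m (by omega)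
        exact know_mono _ _ hle _ _ h2
      exact know_step ⟨t (m + 1), hlt _ hm⟩ _ _ _ h1 h3
  rcases Nat.eq_zero_or_pos k with rfl | hpos
  · have huv : u = v := by rw [← h0, ← hk]
    have : ∀ u : Fin 9, tab u u = true := by decide
    rw [← huv]
    exact this u
  · have h1 := key (k - 1) (by omega)
    rw [show k - 1 + 1 = k by omega, hk] at h1
    have h2 := know_mono ⟨t (k - 1), hlt _ (by omega)⟩ 4 (Fin.le_last _) v u h1
    have h3 : ∀ w z : Fin 9, know 4 w z = true → tab z w = true := by decide
    exact h3 v u h2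

theorem path_one {V : Type} {c : V → V → ℕ → Prop} {u v : V} {t : ℕ} (h : c u v t) :
    TemporalPath c u v := by
  refine ⟨1, fun i => if i = 0 then u else v, fun _ => t, by simp, by simp, ?_, ?_⟩
  · intro i hi
    obtain rfl : i = 0 := by omega
    simpa using h
  · intro i hi
    omega

theorem path_snoc {V : Type} {c : V → V → ℕ → Prop} {u v w : V} {t t' : ℕ} (h : c u v t)
    (h' : c v w t') (ht : t ≤ t') : TemporalPath c u w := by
  refine ⟨2, fun i => if i = 0 then u else if i = 1 then v else w,
    fun i => if i = 0 then t else t', by simp, by simp, ?_, ?_⟩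
  · intro i hi
    rcases (by omega : i = 0 ∨ i = 1) with rfl | rfl
    · simpa using h
    · simpa using h'
  · intro i hi
    obtain rfl : i = 0 := by omega
    simpa using ht

theorem path_three {V : Type} {c : V → V → ℕ → Prop} {u v w z : V} {t t' t'' : ℕ} (h : c u v t)
    (h' : c v w t') (h'' : c w z t'') (ht : t ≤ t') (ht' : t' ≤ t'') : TemporalPath c u z := by
  refine ⟨3, fun i => if i = 0 then u else if i = 1 then v else if i = 2 then w else z,
    fun i => if i = 0 then t else if i = 1 then t' else t'', by simp, by simp, ?_, ?_⟩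
  · intro i hi
    rcases (by omega : i = 0 ∨ i = 1 ∨ i = 2) with rfl | rfl | rfl
    · simpa using h
    · simpa using h'
    · simpa using h''
  · intro i hi
    rcases (by omega : i = 0 ∨ i = 1) with rfl | rfl
    · simpa using ht
    · simpa using ht'

/-- Prefixes of temporal paths. -/
theorem path_prefix {V : Type} {c : V → V → ℕ → Prop} {k : ℕ} {x : ℕ → V} {t : ℕ → ℕ}
    (hc : ∀ i < k, c (x i) (x (i + 1)) (t i)) (ht : ∀ i, i + 1 < k → t i ≤ t (i + 1)) {m : ℕ}
    (hm : m ≤ k) : TemporalPath c (x 0) (x m) :=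
  ⟨m, x, t, rfl, rfl, fun i hi => hc i (by omega), fun i hi => ht i (by omega)⟩

/-- Suffixes of temporal paths. -/
theorem path_suffix {V : Type} {c : V → V → ℕ → Prop} {k : ℕ} {x : ℕ → V} {t : ℕ → ℕ}
    (hc : ∀ i < k, c (x i) (x (i + 1)) (t i)) (ht : ∀ i, i + 1 < k → t i ≤ t (i + 1)) {m : ℕ}
    (hm : m ≤ k) : TemporalPath c (x m) (x k) :=
  ⟨k - m, fun i => x (m + i), fun i => t (m + i), rfl, by simp only []; congr 1; omega,
    fun i hi => hc (m + i) (by omega), fun i hi => ht (m + i) (by omega)⟩

/-- If the only possible intermediate vertex of a temporal path from `u` to `v` is `q`, then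
there is a path with one or two steps. -/
theorem short_path {V : Type} {c : V → V → ℕ → Prop} {u v q : V} (huv : u ≠ v) (huq : u ≠ q)
    (hvq : v ≠ q) (h : TemporalPath c u v)
    (hq : ∀ x, x ≠ u → x ≠ v → TemporalPath c u x → TemporalPath c x v → x = q) :
    (∃ t, c u v t) ∨ ∃ t t', t ≤ t' ∧ c u q t ∧ c q v t' := by
  obtain ⟨k, x, t, h0, hk, hc, ht⟩ := h
  have hx : ∀ m, m ≤ k → x m = u ∨ x m = v ∨ x m = q := by
    intro m hm
    by_cases h1 : x m = u
    · exact Or.inl h1
    by_cases h2 : x m = v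
    · exact Or.inr (Or.inl h2)
    right; right
    apply hq _ h1 h2
    · rw [← h0]; exact path_prefix hc ht hm
    · rw [← hk]; exact path_suffix hc ht hm
  have key : ∀ m, m ≤ k → ((∃ t, c u v t) ∨ ∃ t t', t ≤ t' ∧ c u q t ∧ c q v t') ∨
      x m = u ∨ (x m = q ∧ ∃ τ, c u q τ ∧ ∀ n, m = n + 1 → τ ≤ t n) := by
    intro m
    induction m with
    | zero => intro _; exact Or.inr (Or.inl h0)
    | succ m ih =>
      intro hm
      rcases ih (by omega) with h | h | ⟨h, τ, hτ, hτ'⟩
      · exact Or.inl h
      · have hcm := hc m (by omega)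
        rw [h] at hcm
        rcases hx (m + 1) hm with h' | h' | h'
        · exact Or.inr (Or.inl h')
        · rw [h'] at hcm
          exact Or.inl (Or.inl ⟨_, hcm⟩)
        · rw [h'] at hcm
          refine Or.inr (Or.inr ⟨h', t m, hcm, ?_⟩)
          intro n hn
          obtain rfl : m = n := by omega
          exact le_rfl
      · have hcm := hc m (by omega)
        rw [h] at hcm
        have hle : τ ≤ t m := by
          rcases Nat.eq_zero_or_pos m with rfl | hpos
          · exfalso
            rw [h0] at h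
            exact huq h
          · have h1 := hτ' (m - 1) (by omega)
            have h2 := ht (m - 1) (by omega)
            rw [show m - 1 + 1 = m by omega] at h2
            omega
        rcases hx (m + 1) hm with h' | h' | h'
        · exact Or.inr (Or.inl h')
        · rw [h'] at hcm
          exact Or.inl (Or.inr ⟨τ, t m, hle, hτ, hcm⟩)
        · refine Or.inr (Or.inr ⟨h', τ, hτ, ?_⟩)
          intro n hn
          obtain rfl : m = n := by omega
          exact hle
  rcases key k le_rfl with h | h | ⟨h, -⟩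
  · exact h
  · rw [hk] at h
    exact absurd h.symm huv
  · rw [hk] at h
    exact absurd h hvq

/-- The vertices `a_j` (`r = 0`), `b_j` (`r = 1`), `s_j` (`r = 2`). -/
def vx (j : Fin 3) (r : Fin 3) : Fin 9 := ⟨3 * j.val + r.val, by omega⟩

theorem reach_pos (j : Fin 3) :
    TemporalPath exG.Contact (vx (j + 1) 0) (vx j 2) ∧
    TemporalPath exG.Contact (vx (j + 1) 1) (vx j 2) ∧
    TemporalPath exG.Contact (vx j 2) (vx j 0) ∧
    TemporalPath exG.Contact (vx j 2) (vx j 1) := by
  have h1 : ∀ j : Fin 3, step 3 (vx (j + 1) 0) (vx j 2) = true := by decide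
  have h2 : ∀ j : Fin 3, step 1 (vx (j + 1) 1) (vx (j + 1) 0) = true := by decide
  have h3 : ∀ j : Fin 3, step 2 (vx j 2) (vx j 1) = true := by decide
  have h4 : ∀ j : Fin 3, step 4 (vx j 1) (vx j 0) = true := by decide
  refine ⟨path_one ((contact_iff _ _ _).2 (h1 j)),
    path_snoc ((contact_iff _ _ _).2 (h2 j)) ((contact_iff _ _ _).2 (h1 j)) (by norm_num),
    path_snoc ((contact_iff _ _ _).2 (h3 j)) ((contact_iff _ _ _).2 (h4 j)) (by norm_num),
    path_one ((contact_iff _ _ _).2 (h3 j))⟩

/-- The combinatorial core: no simple directed contact relation on the nine vertices has the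
reachability of the example. -/
theorem core (c : Fin 9 → Fin 9 → ℕ → Prop) (huniq : ∀ u v t t', c u v t → c u v t' → t = t')
    (hr : ∀ u v : Fin 9, Reachability exG.Contact u v ↔ Reachability c u v) : False := by
  have hT : ∀ u v : Fin 9, u ≠ v → TemporalPath c u v → tab u v = true := by
    intro u v huv h
    exact tab_of_path ((hr u v).2 ⟨huv, h⟩).2
  have hP : ∀ u v : Fin 9, u ≠ v → TemporalPath exG.Contact u v → TemporalPath c u v := by
    intro u v huv h
    exact ((hr u v).1 ⟨huv, h⟩).2
  -- for every `j` some vertex of the pair `j+1` sends directly to `s_j` and receives directly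
  -- from `s_(j+1)`
  have hstep : ∀ j : Fin 3, ∃ r : Fin 3, r ≠ 2 ∧ ∃ f g, f < g ∧
      c (vx (j + 1) r) (vx j 2) f ∧ c (vx (j + 1) 2) (vx (j + 1) r) g := by
    intro j
    -- the paths from the pair to `s_j`
    have hout : ∀ r r' : Fin 3, r ≠ 2 → r' ≠ 2 → r ≠ r' →
        (∃ t, c (vx (j + 1) r) (vx j 2) t) ∨ ∃ t t', t ≤ t' ∧
          c (vx (j + 1) r) (vx (j + 1) r') t ∧ c (vx (j + 1) r') (vx j 2) t' := by
      intro r r' hr2 hr2' hrr'
      have n1 : ∀ j r : Fin 3, vx (j + 1) r ≠ vx j 2 := by decide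
      have n2 : ∀ j r r' : Fin 3, r ≠ r' → vx (j + 1) r ≠ vx (j + 1) r' := by decide
      have n3 : ∀ (j r r' : Fin 3) (x : Fin 9), (r ≠ 2 ∧ r' ≠ 2 ∧ r ≠ r' ∧ x ≠ vx (j + 1) r ∧
          x ≠ vx j 2 ∧ tab (vx (j + 1) r) x = true ∧ tab x (vx j 2) = true) →
          x = vx (j + 1) r' := by decide +kernel
      apply short_path (n1 j r) (n2 j r r' hrr') (Ne.symm (n1 j r'))
      · apply hP _ _ (n1 j r)
        have h := reach_pos j
        rcases (by omega : r = 0 ∨ r = 1) with rfl | rfl
        · exact h.1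
        · exact h.2.1
      · intro x hx1 hx2 hp1 hp2
        exact n3 j r r' x ⟨hr2, hr2', hrr', hx1, hx2, hT _ _ (Ne.symm hx1) hp1, hT _ _ hx2 hp2⟩
    have hin : ∀ r r' : Fin 3, r ≠ 2 → r' ≠ 2 → r ≠ r' →
        (∃ t, c (vx (j + 1) 2) (vx (j + 1) r) t) ∨ ∃ t t', t ≤ t' ∧
          c (vx (j + 1) 2) (vx (j + 1) r') t ∧ c (vx (j + 1) r') (vx (j + 1) r) t' := by
      intro r r' hr2 hr2' hrr'
      have n2 : ∀ j r r' : Fin 3, r ≠ r' → vx (j + 1) r ≠ vx (j + 1) r' := by decide
      have n3 : ∀ (j r r' : Fin 3) (x : Fin 9), (r ≠ 2 ∧ r' ≠ 2 ∧ r ≠ r' ∧ x ≠ vx (j + 1) 2 ∧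
          x ≠ vx (j + 1) r ∧ tab (vx (j + 1) 2) x = true ∧ tab x (vx (j + 1) r) = true) →
          x = vx (j + 1) r' := by decide +kernel
      apply short_path (n2 j 2 r (Ne.symm hr2)) (n2 j 2 r' (Ne.symm hr2')) (n2 j r r' hrr')
      · apply hP _ _ (n2 j 2 r (Ne.symm hr2))
        have h := reach_pos (j + 1)
        rcases (by omega : r = 0 ∨ r = 1) with rfl | rfl
        · exact h.2.2.1
        · exact h.2.2.2
      · intro x hx1 hx2 hp1 hp2
        exact n3 j r r' x ⟨hr2, hr2', hrr', hx1, hx2, hT _ _ (Ne.symm hx1) hp1, hT _ _ hx2 hp2⟩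
    -- `s_(j+1)` does not reach `s_j`
    have hno : ¬ TemporalPath c (vx (j + 1) 2) (vx j 2) := by
      intro h
      have n1 : ∀ j : Fin 3, vx (j + 1) 2 ≠ vx j 2 := by decide
      have n2 : ∀ j : Fin 3, tab (vx (j + 1) 2) (vx j 2) = false := by decide
      have := hT _ _ (n1 j) h
      rw [n2 j] at this
      exact absurd this (by decide)
    have hfin : ∀ r : Fin 3, r ≠ 2 → (∃ f, c (vx (j + 1) r) (vx j 2) f) →
        (∃ g, c (vx (j + 1) 2) (vx (j + 1) r) g) → ∃ r : Fin 3, r ≠ 2 ∧ ∃ f g, f < g ∧
          c (vx (j + 1) r) (vx j 2) f ∧ c (vx (j + 1) 2) (vx (j + 1) r) g := by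
      rintro r hr2 ⟨f, hf⟩ ⟨g, hg⟩
      refine ⟨r, hr2, f, g, ?_, hf, hg⟩
      by_contra hle
      exact hno (path_snoc hg hf (by omega))
    have hcross : ∀ r r' : Fin 3, r ≠ 2 → r' ≠ 2 → r ≠ r' →
        (∃ f, c (vx (j + 1) r) (vx j 2) f) → (∃ g, c (vx (j + 1) 2) (vx (j + 1) r') g) →
        ∃ r : Fin 3, r ≠ 2 ∧ ∃ f g, f < g ∧
          c (vx (j + 1) r) (vx j 2) f ∧ c (vx (j + 1) 2) (vx (j + 1) r) g := by
      rintro r r' hr2 hr2' hrr' ⟨f, hf⟩ ⟨g, hg⟩
      rcases hout r' r hr2' hr2 (Ne.symm hrr') with h | ⟨t1, t2, ht12, h1, h2⟩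
      · exact hfin r' hr2' h ⟨g, hg⟩
      rcases hin r r' hr2 hr2' hrr' with h | ⟨t3, t4, ht34, h3, h4⟩
      · exact hfin r hr2 ⟨f, hf⟩ h
      exfalso
      have e : t4 = t1 := huniq _ _ _ _ h4 h1
      subst e
      exact hno (path_three h3 h4 h2 ht34 ht12)
    have h01 : (0 : Fin 3) ≠ 2 := by decide
    have h12 : (1 : Fin 3) ≠ 2 := by decide
    have h00 : (0 : Fin 3) ≠ 1 := by decide
    -- some vertex of the pair sends to `s_j`, some vertex of the pair receives from `s_(j+1)`
    have hA : (∃ f, c (vx (j + 1) 0) (vx j 2) f) ∨ (∃ f, c (vx (j + 1) 1) (vx j 2) f) := by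
      rcases hout 0 1 h01 h12 h00 with h | ⟨t, t', -, -, h⟩
      · exact Or.inl h
      · exact Or.inr ⟨t', h⟩
    have hB : (∃ g, c (vx (j + 1) 2) (vx (j + 1) 0) g) ∨
        (∃ g, c (vx (j + 1) 2) (vx (j + 1) 1) g) := by
      rcases hin 0 1 h01 h12 h00 with h | ⟨t, t', -, h, -⟩
      · exact Or.inl h
      · exact Or.inr ⟨t, h⟩
    rcases hA with hA | hA <;> rcases hB with hB | hB
    · exact hfin 0 h01 hA hB
    · exact hcross 0 1 h01 h12 h00 hA hB
    · exact hcross 1 0 h12 h01 (Ne.symm h00) hA hB
    · exact hfin 1 h12 hA hB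
  -- a vertex of the pair `j` receiving from `s_j` does so before any vertex of the pair `j+1`
  -- sends to `s_j`
  have hlt : ∀ (j r r' : Fin 3), r ≠ 2 → r' ≠ 2 → ∀ f g, c (vx (j + 1) r) (vx j 2) f →
      c (vx j 2) (vx j r') g → g < f := by
    intro j r r' hr2 hr2' f g hf hg
    by_contra hle
    have hp := path_snoc hf hg (by omega)
    have n1 : ∀ j r r' : Fin 3, r ≠ 2 → r' ≠ 2 → vx (j + 1) r ≠ vx j r' := by decide
    have n2 : ∀ j r r' : Fin 3, r ≠ 2 → r' ≠ 2 → tab (vx (j + 1) r) (vx j r') = false := by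
      decide
    have := hT _ _ (n1 j r r' hr2 hr2') hp
    rw [n2 j r r' hr2 hr2'] at this
    exact absurd this (by decide)
  obtain ⟨r0, hr0, f0, g0, hfg0, hf0, hg0⟩ := hstep 0
  obtain ⟨r1, hr1, f1, g1, hfg1, hf1, hg1⟩ := hstep 1
  obtain ⟨r2, hr2, f2, g2, hfg2, hf2, hg2⟩ := hstep 2
  have k1 := hlt 1 r1 r0 hr1 hr0 f1 g0 hf1 hg0
  have k2 := hlt 2 r2 r1 hr2 hr1 f2 g1 hf2 hg1
  have k3 := hlt 0 r0 r2 hr0 hr2 f0 g2 hf0 hg2
  omega

/-- There is an undirected temporal graph on nine vertices such that no directed simple temporal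
graph (on any vertex type) is reachability equivalent to it in the non-strict setting. -/
theorem result : ∃ G : UndirectedTemporalGraph (Fin 9),
    ∀ (W : Type) (H : DirectedTemporalGraph W), H.IsSimple →
      ¬ ReachabilityEquivalent G.Contact H.Contact := by
  refine ⟨exG, ?_⟩
  rintro W H hs ⟨e, he⟩
  apply core (fun u v t => H.Contact (e u) (e v) t)
  · rintro u v t t' ⟨h1, h2⟩ ⟨-, h3⟩
    exact (hs _ h1).unique h2 h3
  · intro u v
    rw [he]
    unfold Reachability
    refine and_congr (e.injective.ne_iff) ?_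
    constructor
    · rintro ⟨k, x, t, h0, hk, hc, ht⟩
      refine ⟨k, fun i => e.symm (x i), t, by simp [h0], by simp [hk], ?_, ht⟩
      intro i hi
      simpa using hc i hi
    · rintro ⟨k, x, t, h0, hk, hc, ht⟩
      exact ⟨k, fun i => e (x i), t, by simp [h0], by simp [hk], fun i hi => hc i hi, ht⟩

end Pool.Agent.Results.MP_b998f6_co.NineCycle
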